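import Mathlib
import Pool.Agent.Helper72.PSpace
import Pool.Agent.Helper72.VBDefs
import Pool.Agent.Helper72.TorFinal

open AlgebraicGeometry CategoryTheory Pool.Agent.Helper72 Pool.Agent.Helper72.VB

universe u

namespace Pool.Agent.Results.MP_947c53_ag.Counterexample

/-- Over every algebraically closed field `k` of characteristic `0` there are a projective variety
`X` and a big, semistable vector sheaf `E` of rank `2` on `X` whose essential base locus is `X`:
for every ample line sheaf `A` on the projective bundle `π : P(E) → X`, the essential base locus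
of `𝒪(1)` computed with `A` maps onto `X`. -/
theorem result (k : Type u) [Field k] [IsAlgClosed k] [CharZero k] :
    ∃ (X : Scheme.{u}) (f : X ⟶ Spec (.of k)) (E : VSheaf X 2),
      IsIntegral X ∧ IsProjectiveOver f ∧ E.IsBig f ∧ ¬ E.IsUnstable f ∧
      ∃ B : ProjBundle E, (∃ A : LSheaf B.P, A.IsAmple) ∧
        ∀ A : LSheaf B.P, A.IsAmple → B.π '' (B.O1.essBase A) = Set.univ :=
  ⟨TX k MX, TXto k MX, E, isIntegral_TX k MX, isProjectiveOver_X k, E_big,
    haveI : Infinite k := IsAlgClosed.instInfinite
    E_semistable, PB, ⟨AP, AP_ample⟩, fun A hA ↦ essBase_eq A hA⟩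

end Pool.Agent.Results.MP_947c53_ag.Counterexample
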